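import Mathlib
import Pool.Agent.TH482.HT.Defs

/-! # The rank of the mod 2 intersection form of a rotation system -/

namespace TH482.HT

open Equiv Module

abbrev K := ZMod 2

section general

variable {D : Type} [Fintype D]

/-- functions constant on the orbits of `σ` -/
def Fix (σ : Perm D) : Submodule K (D → K) where
  carrier := {b | ∀ d, b (σ d) = b d}
  add_mem' := by intro a b ha hb d; simp [ha d, hb d]
  zero_mem' := by intro d; rfl
  smul_mem' := by intro c x hx d; simp [hx d]

theorem Fix_zpow {σ : Perm D} {b : D → K} (hb : b ∈ Fix σ) (k : ℤ) (d : D) :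
    b ((σ ^ k) d) = b d := by
  have h1 : ∀ d, b (σ d) = b d := hb
  induction k using Int.induction_on generalizing d with
  | zero => simp
  | succ n ih =>
    rw [zpow_add, zpow_one, Perm.mul_apply, ih, h1]
  | pred n ih =>
    rw [zpow_sub, zpow_one, Perm.mul_apply, ih]
    have h2 := h1 (σ⁻¹ d)
    have h3 : σ (σ⁻¹ d) = d := σ.apply_symm_apply d
    rw [h3] at h2
    exact h2.symm

noncomputable def fixEquiv (σ : Perm D) :
    (Quotient (Perm.SameCycle.setoid σ) → K) ≃ₗ[K] Fix σ :=
  LinearEquiv.ofBijective
    ({ toFun := fun f => ⟨fun d => f (Quotient.mk _ d), by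
          intro d
          have : (Quotient.mk (Perm.SameCycle.setoid σ) (σ d)) = Quotient.mk _ d := by
            apply Quotient.sound
            exact ⟨-1, by simp⟩
          simp only [this]⟩
       map_add' := by intro f g; rfl
       map_smul' := by intro c f; rfl } : (Quotient (Perm.SameCycle.setoid σ) → K) →ₗ[K] Fix σ)
    (by
      constructor
      · intro f g h
        funext q
        induction q using Quotient.ind with
        | _ d => exact congrFun (congrArg Subtype.val h) d
      · intro b
        refine ⟨fun q => Quotient.lift b.1 (fun x y hxy => ?_) q, ?_⟩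
        · obtain ⟨k, hk⟩ := hxy
          rw [← hk, Fix_zpow b.2]
        · rfl)

theorem finrank_Fix (σ : Perm D) : finrank K (Fix σ) = numOrbits σ := by
  rw [← (fixEquiv σ).finrank_eq]
  haveI : Fintype (Quotient (Perm.SameCycle.setoid σ)) := Fintype.ofFinite _
  rw [Module.finrank_fintype_fun_eq_card, numOrbits, Nat.card_eq_fintype_card]

end general

section rs

variable {E : Type} [Fintype E] [DecidableEq E]

/-- reversal of a dart -/
def flip : Perm (E × Bool) where
  toFun d := (d.1, !d.2)
  invFun d := (d.1, !d.2)
  left_inv := by intro d; simp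
  right_inv := by intro d; simp

@[simp] theorem flip_apply (d : E × Bool) : flip d = (d.1, !d.2) := rfl

variable (rot : Perm (E × Bool))

def W : Submodule K (E × Bool → K) where
  carrier := {b | ∀ e, b (e, false) + b (rot (e, false)) + b (e, true) + b (rot (e, true)) = 0}
  add_mem' := by
    intro a b ha hb e
    have h1 := ha e
    have h2 := hb e
    simp only [Pi.add_apply]
    linear_combination h1 + h2
  zero_mem' := by intro e; simp
  smul_mem' := by
    intro c x hx e
    have h1 := hx e
    simp only [Pi.smul_apply, smul_eq_mul]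
    linear_combination c * h1

def Conn : Prop := ∀ f : E × Bool → K, (∀ d, f (rot d) = f d) → (∀ d, f (flip d) = f d) →
  ∀ d d', f d = f d'

def TM : Matrix (E × Bool) (E × Bool) K := fun d d' =>
  (if d' = d then 1 else 0) + (if d' = rot d then 1 else 0) + (if d' = flip d then 1 else 0) +
    (if d' = rot (flip d) then 1 else 0)

theorem TM_mulVec (b : E × Bool → K) (d : E × Bool) :
    (TM rot).mulVec b d = b d + b (rot d) + b (flip d) + b (rot (flip d)) := by
  simp only [Matrix.mulVec, dotProduct, TM, add_mul, Finset.sum_add_distrib, ite_mul, one_mul,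
    zero_mul, Finset.sum_ite_eq', Finset.mem_univ, if_true]

theorem TMt_mulVec (b : E × Bool → K) (d : E × Bool) :
    (TM rot).transpose.mulVec b d =
      b d + b (rot.symm d) + b (flip d) + b (flip (rot.symm d)) := by
  simp only [Matrix.mulVec, dotProduct, TM, Matrix.transpose_apply, add_mul,
    Finset.sum_add_distrib, ite_mul, one_mul, zero_mul]
  have h1 : ∑ x : E × Bool, (if d = x then b x else 0) = b d := by simp
  have h2 : ∑ x : E × Bool, (if d = rot x then b x else 0) = b (rot.symm d) := by
    have : ∀ x : E × Bool, (if d = rot x then b x else 0) = if rot.symm d = x then b x else 0 := by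
      intro x
      congr 1
      simp [Equiv.symm_apply_eq]
    simp [this]
  have h3 : ∑ x : E × Bool, (if d = flip x then b x else 0) = b (flip d) := by
    have : ∀ x : E × Bool, (if d = flip x then b x else 0) = if flip d = x then b x else 0 := by
      intro x
      congr 1
      apply propext
      constructor
      · rintro rfl; simp
      · rintro rfl; simp
    rw [Finset.sum_congr rfl (fun x _ => this x)]
    simp only [Finset.sum_ite_eq, Finset.mem_univ, if_true]
  have h4 : ∑ x : E × Bool, (if d = rot (flip x) then b x else 0) = b (flip (rot.symm d)) := by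
    have : ∀ x : E × Bool, (if d = rot (flip x) then b x else 0) =
        if flip (rot.symm d) = x then b x else 0 := by
      intro x
      congr 1
      apply propext
      constructor
      · rintro rfl; simp
      · rintro rfl; simp
    rw [Finset.sum_congr rfl (fun x _ => this x)]
    simp only [Finset.sum_ite_eq, Finset.mem_univ, if_true]
  rw [h1, h2, h3, h4]

theorem W_eq_ker : W rot = LinearMap.ker (TM rot).mulVecLin := by
  ext b
  rw [LinearMap.mem_ker, Matrix.mulVecLin_apply]
  constructor
  · intro h
    funext d
    rw [TM_mulVec]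
    obtain ⟨e, s⟩ := d
    have h1 := h e
    cases s
    · simp only [flip_apply, Bool.not_false, Pi.zero_apply]
      linear_combination h1
    · simp only [flip_apply, Bool.not_true, Pi.zero_apply]
      linear_combination h1
  · intro h e
    have := congrFun h (e, false)
    rw [TM_mulVec] at this
    simp only [flip_apply, Bool.not_false, Pi.zero_apply] at this
    linear_combination this

theorem finrank_W_le [Nonempty E] (hc : Conn rot) :
    finrank K (W rot) ≤ Fintype.card E + 1 := by
  have h1 := LinearMap.finrank_range_add_finrank_ker (TM rot).mulVecLin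
  have h2 := LinearMap.finrank_range_add_finrank_ker (TM rot).transpose.mulVecLin
  have h3 : finrank K (LinearMap.range (TM rot).transpose.mulVecLin) =
      finrank K (LinearMap.range (TM rot).mulVecLin) := Matrix.rank_transpose (TM rot)
  rw [W_eq_ker]
  have h4 : finrank K (LinearMap.ker (TM rot).mulVecLin) =
      finrank K (LinearMap.ker (TM rot).transpose.mulVecLin) := by omega
  rw [h4]
  obtain ⟨e0⟩ := ‹Nonempty E›
  let P := LinearMap.ker (TM rot).transpose.mulVecLin
  let g : P →ₗ[K] K × (E → K) :=
    { toFun := fun h => (h.1 (e0, false) + h.1 (e0, true), fun e => h.1 (e, false))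
      map_add' := by
        intro x y
        ext
        · simp only [Submodule.coe_add, Pi.add_apply, Prod.fst_add]; ring
        · simp
      map_smul' := by
        intro c x
        ext
        · simp only [Submodule.coe_smul, Pi.smul_apply, smul_eq_mul, RingHom.id_apply,
            Prod.smul_fst]; ring
        · simp }
  have hg : Function.Injective g := by
    rw [← LinearMap.ker_eq_bot, LinearMap.ker_eq_bot']
    intro h hh
    have ha : h.1 (e0, false) + h.1 (e0, true) = 0 := congrArg Prod.fst hh
    have hb : ∀ e, h.1 (e, false) = 0 := fun e => congrFun (congrArg Prod.snd hh) e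
    have hk : (TM rot).transpose.mulVec h.1 = 0 := h.2
    have hconst : ∀ d d' : E × Bool, h.1 d + h.1 (flip d) = h.1 d' + h.1 (flip d') := by
      apply hc (fun d => h.1 d + h.1 (flip d))
      · intro d
        have := congrFun hk (rot d)
        rw [TMt_mulVec] at this
        simp only [Equiv.symm_apply_apply, Pi.zero_apply] at this
        have h2 : (2 : K) = 0 := rfl
        linear_combination this - (h.1 d + h.1 (flip d)) * h2
      · intro d
        simp only [flip_apply, Bool.not_not]
        ring
    have hz : ∀ e, h.1 (e, true) = 0 := by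
      intro e
      have := hconst (e, false) (e0, false)
      simp only [flip_apply, Bool.not_false, ha, hb e, zero_add] at this
      exact this
    apply Subtype.ext
    funext d
    obtain ⟨e, s⟩ := d
    cases s
    · exact hb e
    · exact hz e
  have h5 := LinearMap.finrank_le_finrank_of_injective hg
  have h6 : finrank K (K × (E → K)) = 1 + Fintype.card E := by simp
  have h7 : finrank K P ≤ Fintype.card E + 1 := by
    rw [h6] at h5
    rw [add_comm]
    exact h5
  exact h7

/-- the intersection form -/
def om (b c : E × Bool → K) : K :=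
  ∑ e : E, (b (e, false) + b (rot (e, false))) * (c (e, false) + c (rot (e, true)))

def omL (c : E × Bool → K) : (E × Bool → K) →ₗ[K] K where
  toFun b := om rot b c
  map_add' := by
    intro x y
    simp only [om, Pi.add_apply, ← Finset.sum_add_distrib]
    exact Finset.sum_congr rfl fun e _ => by ring
  map_smul' := by
    intro a x
    simp only [om, Pi.smul_apply, smul_eq_mul, RingHom.id_apply, Finset.mul_sum]
    exact Finset.sum_congr rfl fun e _ => by ring

theorem sum_darts (f : E × Bool → K) : ∑ e : E, (f (e, false) + f (e, true)) = ∑ d, f d := by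
  rw [Fintype.sum_prod_type]
  exact Finset.sum_congr rfl fun e _ => by simp [add_comm]

theorem om_symm {b c : E × Bool → K} (hb : b ∈ W rot) (hc : c ∈ W rot) :
    om rot b c = om rot c b := by
  have key : ∀ b1 b2 b3 b4 c1 c2 c3 c4 : K, b1 + b2 + b3 + b4 = 0 → c1 + c2 + c3 + c4 = 0 →
      (b1 + b2) * (c1 + c4) + (c1 + c2) * (b1 + b4) =
        (b1 * c1 + b3 * c3) + (b2 * c2 + b4 * c4) := by decide
  have h1 : om rot b c + om rot c b =
      ∑ e : E, ((b (e, false) * c (e, false) + b (e, true) * c (e, true)) +
        (b (rot (e, false)) * c (rot (e, false)) + b (rot (e, true)) * c (rot (e, true)))) := by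
    rw [om, om, ← Finset.sum_add_distrib]
    exact Finset.sum_congr rfl fun e _ => key _ _ _ _ _ _ _ _ (hb e) (hc e)
  rw [Finset.sum_add_distrib, sum_darts (fun d => b d * c d),
    sum_darts (fun d => b (rot d) * c (rot d)),
    Equiv.sum_comp rot (fun d => b d * c d)] at h1
  have h2 : om rot b c + om rot c b = 0 := by rw [h1]; exact CharTwo.add_self_eq_zero _
  exact CharTwo.add_eq_zero.mp h2

theorem om_self {b : E × Bool → K} (hb : b ∈ W rot) : om rot b b = 0 := by
  have key : ∀ b1 b2 b3 b4 : K, b1 + b2 + b3 + b4 = 0 →
      (4 : ℤ) ∣ 2 * ((((b1 + b2) * (b1 + b4)).val : ℕ) : ℤ) -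
        (((b2.val : ℤ) - b1.val) + ((b4.val : ℤ) - b3.val)) := by decide
  have h1 : (4 : ℤ) ∣ ∑ e : E, (2 * ((((b (e, false) + b (rot (e, false))) *
      (b (e, false) + b (rot (e, true)))).val : ℕ) : ℤ) -
        ((((b (rot (e, false))).val : ℤ) - (b (e, false)).val) +
          (((b (rot (e, true))).val : ℤ) - (b (e, true)).val))) :=
    Finset.dvd_sum fun e _ => key _ _ _ _ (hb e)
  rw [Finset.sum_sub_distrib] at h1
  have h2 : ∑ e : E, ((((b (rot (e, false))).val : ℤ) - (b (e, false)).val) +
          (((b (rot (e, true))).val : ℤ) - (b (e, true)).val)) = 0 := by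
    have h3 : ∀ f : E × Bool → ℤ, ∑ e : E, (f (e, false) + f (e, true)) = ∑ d, f d := by
      intro f
      rw [Fintype.sum_prod_type]
      exact Finset.sum_congr rfl fun e _ => by simp [add_comm]
    have h4 := h3 (fun d => (((b (rot d)).val : ℤ) - (b d).val))
    rw [h4, Finset.sum_sub_distrib, Equiv.sum_comp rot (fun d => ((b d).val : ℤ)), sub_self]
  rw [h2, sub_zero, ← Finset.mul_sum] at h1
  have h5 : (2 : ℤ) ∣ ∑ e : E, ((((b (e, false) + b (rot (e, false))) *
      (b (e, false) + b (rot (e, true)))).val : ℕ) : ℤ) := by omega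
  have h6 : om rot b b = ((∑ e : E, ((((b (e, false) + b (rot (e, false))) *
      (b (e, false) + b (rot (e, true)))).val : ℕ) : ℤ) : ℤ) : K) := by
    rw [om]
    push_cast
    exact Finset.sum_congr rfl fun e _ => by simp
  rw [h6]
  exact (ZMod.intCast_zmod_eq_zero_iff_dvd _ 2).mpr h5

theorem om_of_Fix_left {b : E × Bool → K} (hb : b ∈ Fix rot) (c : E × Bool → K) :
    om rot b c = 0 := by
  have h : ∀ d, b (rot d) = b d := hb
  rw [om]
  apply Finset.sum_eq_zero
  intro e _
  rw [h, CharTwo.add_self_eq_zero, zero_mul]

theorem om_of_Fix_right (b : E × Bool → K) {c : E × Bool → K} (hc : c ∈ Fix (rot * flip)) :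
    om rot b c = 0 := by
  have h : ∀ d, c (rot (flip d)) = c d := hc
  rw [om]
  apply Finset.sum_eq_zero
  intro e _
  have := h (e, false)
  simp only [flip_apply, Bool.not_false] at this
  rw [this, CharTwo.add_self_eq_zero, mul_zero]

theorem Fix_rot_le : Fix rot ≤ W rot := by
  intro b hb e
  have h : ∀ d, b (rot d) = b d := hb
  rw [h, h]
  have h2 : (2 : K) = 0 := rfl
  linear_combination (b (e, false) + b (e, true)) * h2

theorem Fix_face_le : Fix (rot * flip) ≤ W rot := by
  intro b hb e
  have h : ∀ d, b (rot (flip d)) = b d := hb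
  have h1 := h (e, false)
  have h3 := h (e, true)
  simp only [flip_apply, Bool.not_false, Bool.not_true] at h1 h3
  rw [h1, h3]
  have h2 : (2 : K) = 0 := rfl
  linear_combination (b (e, false) + b (e, true)) * h2

/-- The rank of the intersection form is at most `2 - χ`. -/
theorem finrank_le [Nonempty E] (hc : Conn rot) (y : ℕ → E × Bool → K) (hy : ∀ j, y j ∈ W rot)
    (S : Submodule K (ℕ → K)) (hS : ∀ f ∈ S, ∃ b ∈ W rot, ∀ j, f j = om rot b (y j)) :
    finrank K S + numOrbits rot + numOrbits (rot * flip) ≤ Fintype.card E + 2 := by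
  let Θ : W rot →ₗ[K] (ℕ → K) := (LinearMap.pi fun j => omL rot (y j)) ∘ₗ (W rot).subtype
  have hΘ : ∀ b : W rot, ∀ j, Θ b j = om rot b.1 (y j) := fun b j => rfl
  have h1 := LinearMap.finrank_range_add_finrank_ker Θ
  have h2 := finrank_W_le rot hc
  have hSle : S ≤ LinearMap.range Θ := by
    intro f hf
    obtain ⟨b, hb, h⟩ := hS f hf
    refine ⟨⟨b, hb⟩, ?_⟩
    funext j
    rw [hΘ, h j]
  have h3 : finrank K S ≤ finrank K (LinearMap.range Θ) := Submodule.finrank_mono hSle
  have hle : Fix rot ⊔ Fix (rot * flip) ≤ W rot := sup_le (Fix_rot_le rot) (Fix_face_le rot)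
  have hker : (Fix rot ⊔ Fix (rot * flip)) ≤ (LinearMap.ker Θ).map (W rot).subtype := by
    intro b hb
    refine ⟨⟨b, hle hb⟩, ?_, rfl⟩
    rw [SetLike.mem_coe, LinearMap.mem_ker]
    funext j
    rw [hΘ]
    obtain ⟨b1, hb1, b2, hb2, rfl⟩ := Submodule.mem_sup.mp hb
    have : om rot (b1 + b2) (y j) = om rot b1 (y j) + om rot b2 (y j) :=
      (omL rot (y j)).map_add b1 b2
    simp only [Pi.zero_apply]
    rw [this, om_of_Fix_left rot hb1, om_symm rot (Fix_face_le rot hb2) (hy j),
      om_of_Fix_right rot _ hb2, add_zero]
  have h4 : finrank K ↥(Fix rot ⊔ Fix (rot * flip)) ≤ finrank K (LinearMap.ker Θ) := by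
    refine (Submodule.finrank_mono hker).trans ?_
    exact Submodule.finrank_map_le _ _
  have h5 := Submodule.finrank_sup_add_finrank_inf_eq (Fix rot) (Fix (rot * flip))
  rw [finrank_Fix, finrank_Fix] at h5
  have h6 : finrank K ↥(Fix rot ⊓ Fix (rot * flip)) ≤ 1 := by
    obtain ⟨e0⟩ := ‹Nonempty E›
    let g : ↥(Fix rot ⊓ Fix (rot * flip)) →ₗ[K] K :=
      (LinearMap.proj ((e0, false) : E × Bool)) ∘ₗ (Submodule.subtype _)
    have hg : Function.Injective g := by
      rw [← LinearMap.ker_eq_bot, LinearMap.ker_eq_bot']
      intro h hh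
      have ha : h.1 (e0, false) = 0 := hh
      have hr : ∀ d, h.1 (rot d) = h.1 d := h.2.1
      have hf : ∀ d, h.1 (rot (flip d)) = h.1 d := h.2.2
      have hfl : ∀ d, h.1 (flip d) = h.1 d := by
        intro d
        rw [← hr (flip d), hf d]
      have := hc h.1 hr hfl
      apply Subtype.ext
      funext d
      rw [this d (e0, false), ha]
      rfl
    have h7 := LinearMap.finrank_le_finrank_of_injective hg
    simpa using h7
  omega

end rs

end TH482.HT
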