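import Mathlib
import Pool.Agent.TH482.HT.Rank

/-! # A verified lower bound for the rank of a 0-1 matrix over `ZMod 2`, rows as bit strings -/

namespace TH482.HT

open Module

/-- the bit string as a function -/
def vec (a : ℕ) : ℕ → K := fun j => if a.testBit j then 1 else 0

theorem vec_xor (a b : ℕ) : vec (a ^^^ b) = vec a + vec b := by
  funext j
  simp only [vec, Nat.testBit_xor, Pi.add_apply]
  cases a.testBit j <;> cases b.testBit j <;> simp <;> rfl

/-- bit `n` of `a` -/
def bit (n a : ℕ) : Bool := Nat.beq (Nat.land (Nat.shiftRight a n) 1) 1

theorem bit_eq (n a : ℕ) : bit n a = a.testBit n := by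
  have h1 : Nat.testBit a n = (1 &&& (a >>> n) != 0) := rfl
  have h2 : Nat.land (Nat.shiftRight a n) 1 = (a >>> n) % 2 := by
    change (a >>> n) &&& 1 = _
    rw [Nat.and_one_is_mod]
  rw [h1, Nat.and_comm 1, Nat.and_one_is_mod, bit, h2]
  have : (a >>> n) % 2 = 0 ∨ (a >>> n) % 2 = 1 := Nat.mod_two_eq_zero_or_one _
  rcases this with h | h <;> rw [h] <;> rfl

/-- the first row having bit `n`, `0` if there is none -/
def findRow (n : ℕ) (rows : List ℕ) : ℕ :=
  List.rec 0 (fun r _ ih => cond (bit n r) r ih) rows

/-- clear bit `n` in all rows with the help of `p` -/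
def clear (n p : ℕ) (rows : List ℕ) : List ℕ :=
  rows.map fun r => cond (bit n r) (Nat.xor r p) r

def elim : ℕ → List ℕ → ℕ
  | 0, _ => 0
  | n + 1, rows => 
      (fun p => cond (Nat.beq p 0) (elim n rows) (elim n (clear n p rows)).succ) (findRow n rows)

theorem findRow_spec (n : ℕ) (rows : List ℕ) :
    findRow n rows = 0 ∨ (findRow n rows ∈ rows ∧ (findRow n rows).testBit n = true) := by
  induction rows with
  | nil => left; rfl
  | cons r rs ih =>
    have h : findRow n (r :: rs) = cond (bit n r) r (findRow n rs) := rfl
    rw [h]
    cases hb : bit n r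
    · rcases ih with ih | ih
      · left; simpa using ih
      · right; simp only [cond_false, List.mem_cons]; exact ⟨Or.inr ih.1, ih.2⟩
    · right
      simp only [cond_true, List.mem_cons, true_or, true_and]
      rw [← bit_eq]; exact hb

theorem elim_le (n : ℕ) : ∀ (rows : List ℕ) (S : Submodule K (ℕ → K)) [FiniteDimensional K S],
    (∀ r ∈ rows, vec r ∈ S) → elim n rows ≤ finrank K S := by
  induction n with
  | zero => intro rows S _ _; exact Nat.zero_le _
  | succ n ih =>
    intro rows S _ hS
    have h0 : elim (n + 1) rows = cond (Nat.beq (findRow n rows) 0) (elim n rows)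
      (elim n (clear n (findRow n rows) rows)).succ := rfl
    rw [h0]
    cases hb : Nat.beq (findRow n rows) 0
    · rw [cond_false]
      have hne : findRow n rows ≠ 0 := by
        intro h; rw [h] at hb; exact absurd hb (by decide)
      rcases findRow_spec n rows with h | ⟨hm, hbit⟩
      · exact absurd h hne
      · set p := findRow n rows with hp
        let Z : Submodule K (ℕ → K) := LinearMap.ker (LinearMap.proj n : (ℕ → K) →ₗ[K] K)
        let S' : Submodule K (ℕ → K) := S ⊓ Z
        have hle : S' ≤ S := inf_le_left
        have : FiniteDimensional K S' := Submodule.finiteDimensional_of_le hle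
        have hcl : ∀ r ∈ clear n p rows, vec r ∈ S' := by
          intro r hr
          rw [clear, List.mem_map] at hr
          obtain ⟨r0, hr0, rfl⟩ := hr
          have hmem0 := hS r0 hr0
          cases hb0 : bit n r0
          · rw [cond_false]
            refine ⟨hmem0, ?_⟩
            change vec r0 n = 0
            rw [vec, ← bit_eq, hb0]; rfl
          · rw [cond_true]
            have h1 : Nat.xor r0 p = r0 ^^^ p := rfl
            rw [h1, vec_xor]
            refine ⟨S.add_mem hmem0 (hS p hm), ?_⟩
            change vec r0 n + vec p n = 0
            rw [vec, vec, ← bit_eq, hb0, hbit]; rfl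
        have h2 := ih (clear n p rows) S' hcl
        have h3 : finrank K S' < finrank K S := by
          apply Submodule.finrank_lt_finrank_of_lt
          refine lt_of_le_of_ne hle ?_
          intro heq
          have : vec p ∈ S' := by rw [heq]; exact hS p hm
          have h4 : vec p n = 0 := this.2
          rw [vec, hbit] at h4
          exact absurd h4 (by decide)
        omega
    · rw [cond_true]
      exact ih rows S hS

end TH482.HT
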