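import Mathlib
import Pool.Agent.TH482.HT.Elim

/-! # The finite check over all rotations at the letter vertices -/

namespace TH482.HT

/-- entries of the Gram matrix: `sm` = same letter, `nb` = interlacement, `u` = order bits -/
def entB (sm nb u : ℕ → ℕ → Bool) (i j : ℕ) : Bool :=
  cond (sm i j) (cond (Nat.blt i j) (u i j) (cond (Nat.blt j i) (u j i) false)) (nb i j)

/-- the bit string with bits `f 0, ..., f (n-1)` -/
def mkRow (f : ℕ → Bool) (n : ℕ) : ℕ :=
  Nat.rec 0 (fun j acc => cond (f j) (acc + 2 ^ j) acc) n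

def allB (n : ℕ) (p : ℕ → Bool) : Bool :=
  Nat.rec true (fun j acc => cond (p j) acc false) n

def validB (nc : ℕ) (sm u : ℕ → ℕ → Bool) : Bool :=
  allB nc fun l => allB l fun j => cond (sm j l)
    (allB j fun i => cond (sm i j) (cond (Bool.xor (u i j) (u j l)) true
      (Bool.not (Bool.xor (u i j) (u i l)))) true) true

def rowsB (nc : ℕ) (sm nb u : ℕ → ℕ → Bool) : List ℕ :=
  (List.range nc).map fun i => mkRow (entB sm nb u i) nc

/-- order bits coded by a number -/
def uB (pidx : ℕ → ℕ → ℕ) (code : ℕ) (i j : ℕ) : Bool := bit (pidx i j) code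

def finalB (nc np g2 : ℕ) (sm nb : ℕ → ℕ → Bool) (pidx : ℕ → ℕ → ℕ) : Bool :=
  allB (2 ^ np) fun code => cond (validB nc sm (uB pidx code))
    (Nat.ble g2 (elim nc (rowsB nc sm nb (uB pidx code)))) true

end TH482.HT
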