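import Mathlib
import Pool.Agent.TH482.HT.Elim

/-! # Even functions on the edges and their intersection numbers, through linear orders of the
darts at every vertex that are compatible with the rotation -/

namespace TH482.HT

open Equiv Module

variable {E V : Type} [Fintype E] [DecidableEq E] [DecidableEq V]

/-- `tail` describes the orbits of `rot` -/
structure IsTail (rot : Perm (E × Bool)) (tail : E × Bool → V) : Prop where
  tail_rot : ∀ d, tail (rot d) = tail d
  cyc : ∀ d d', tail d = tail d' → rot.SameCycle d d'

/-- a compatible linear order -/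
structure IsOrd (rot : Perm (E × Bool)) (tail : E × Bool → V) (ord : E × Bool → ℕ) : Prop where
  tail_rot : ∀ d, tail (rot d) = tail d
  inj : ∀ d d', tail d = tail d' → ord d = ord d' → d = d'
  step : ∀ d, ord (rot d) = ord d + 1 ∨ (ord (rot d) = 0 ∧ ∀ d', tail d' = tail d → ord d' ≤ ord d)

theorem exists_ord {rot : Perm (E × Bool)} {tail : E × Bool → V} (h : IsTail rot tail)
    (base : V → E × Bool) (hb : ∀ d, tail (base (tail d)) = tail d) :
    ∃ ord : E × Bool → ℕ, IsOrd rot tail ord ∧ ∀ d, ord (base (tail d)) = 0 := by
  have hex : ∀ d, ∃ k : ℕ, (rot ^ k) (base (tail d)) = d := by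
    intro d
    obtain ⟨k, _, hk⟩ := (h.cyc _ _ (hb d)).exists_pow_eq'
    exact ⟨k, hk⟩
  have tpow : ∀ (k : ℕ) d, tail ((rot ^ k) d) = tail d := by
    intro k
    induction k with
    | zero => intro d; rfl
    | succ n ih => intro d; rw [pow_succ', Perm.mul_apply, h.tail_rot, ih]
  refine ⟨fun d => Nat.find (hex d), ⟨h.tail_rot, ?_, ?_⟩, ?_⟩
  · intro d d' ht ho
    change Nat.find (hex d) = Nat.find (hex d') at ho
    have h1 := Nat.find_spec (hex d)
    have h2 := Nat.find_spec (hex d')
    rw [ho, ht] at h1
    exact h1.symm.trans h2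
  · intro d
    change Nat.find (hex (rot d)) = Nat.find (hex d) + 1 ∨ (Nat.find (hex (rot d)) = 0 ∧
      ∀ d', tail d' = tail d → Nat.find (hex d') ≤ Nat.find (hex d))
    by_cases hr : rot d = base (tail d)
    · right
      have h0 : Nat.find (hex (rot d)) = 0 := by
        rw [Nat.find_eq_zero]
        rw [h.tail_rot, pow_zero, Perm.one_apply, hr]
      refine ⟨h0, ?_⟩
      intro d' hd'
      have h1 := Nat.find_spec (hex d)
      have hper : (rot ^ (Nat.find (hex d) + 1)) (base (tail d)) = base (tail d) := by
        rw [pow_succ', Perm.mul_apply, h1, hr]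
      set k := Nat.find (hex d) with hk
      obtain ⟨l, hl⟩ := hex d'
      rw [hd'] at hl
      have hmod : (rot ^ (l % (k + 1))) (base (tail d)) = d' := by
        have hp2 : ∀ q : ℕ, (rot ^ ((k + 1) * q)) (base (tail d)) = base (tail d) := by
          intro q
          induction q with
          | zero => simp
          | succ q ih => rw [Nat.mul_succ, pow_add, Perm.mul_apply, hper, ih]
        conv_rhs => rw [← hl, ← Nat.mod_add_div l (k + 1)]
        rw [pow_add, Perm.mul_apply, hp2]
      have h3 : Nat.find (hex d') ≤ l % (k + 1) := by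
        apply Nat.find_min'
        rw [hd']; exact hmod
      have h4 : l % (k + 1) < k + 1 := Nat.mod_lt _ (Nat.succ_pos k)
      omega
    · left
      have h1 := Nat.find_spec (hex d)
      have h2 := Nat.find_spec (hex (rot d))
      set k := Nat.find (hex d) with hk
      set l := Nat.find (hex (rot d)) with hl
      rw [h.tail_rot] at h2
      have hle : l ≤ k + 1 := by
        rw [hl]
        apply Nat.find_min'
        rw [h.tail_rot, pow_succ', Perm.mul_apply, h1]
      have hge : k + 1 ≤ l := by
        cases hl0 : l with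
        | zero =>
          rw [hl0, pow_zero, Perm.one_apply] at h2
          exact absurd h2.symm hr
        | succ m =>
          rw [hl0, pow_succ', Perm.mul_apply] at h2
          have h3 := rot.injective h2
          have h4 : k ≤ m := by
            rw [hk]
            exact Nat.find_min' _ h3
          omega
      omega
  · intro d
    change Nat.find (hex (base (tail d))) = 0
    rw [Nat.find_eq_zero]
    rw [hb, pow_zero, Perm.one_apply]

/-- an edge set is even if every vertex has even degree in it -/
def IsEven (tail : E × Bool → V) (y : E → K) : Prop :=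
  ∀ v, (∑ d : E × Bool, if tail d = v then y d.1 else 0) = 0

def bb (tail : E × Bool → V) (ord : E × Bool → ℕ) (y : E → K) (d : E × Bool) : K :=
  ∑ d', if tail d' = tail d ∧ ord d' < ord d then y d'.1 else 0

def gg (tail : E × Bool → V) (ord : E × Bool → ℕ) (x y : E → K) : K :=
  ∑ e : E, x e * (bb tail ord y (e, false) + bb tail ord y (e, true) + y e)

variable {rot : Perm (E × Bool)} {tail : E × Bool → V} {ord : E × Bool → ℕ}

theorem bb_rot (ho : IsOrd rot tail ord) {y : E → K} (hy : IsEven tail y) (d : E × Bool) :
    bb tail ord y (rot d) = bb tail ord y d + y d.1 := by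
  have hd : y d.1 = ∑ d', if d' = d then y d'.1 else 0 := by simp
  rcases ho.step d with h1 | ⟨h1, h2⟩
  · rw [bb, bb, hd, ← Finset.sum_add_distrib]
    apply Finset.sum_congr rfl
    intro d' _
    rw [ho.tail_rot, h1]
    by_cases ht : tail d' = tail d
    · by_cases hlt : ord d' < ord d
      · have hne : d' ≠ d := by rintro rfl; exact lt_irrefl _ hlt
        rw [if_pos ⟨ht, by omega⟩, if_pos ⟨ht, hlt⟩, if_neg hne, add_zero]
      · by_cases heq : ord d' = ord d
        · have he : d' = d := ho.inj _ _ ht heq
          rw [if_pos ⟨ht, by omega⟩, if_neg (fun h => hlt h.2), if_pos he, zero_add]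
        · have hne : d' ≠ d := by rintro rfl; exact heq rfl
          rw [if_neg (fun h => by have := h.2; omega), if_neg (fun h => hlt h.2), if_neg hne,
            add_zero]
    · have hne : d' ≠ d := by rintro rfl; exact ht rfl
      rw [if_neg (fun h => ht h.1), if_neg (fun h => ht h.1), if_neg hne, add_zero]
  · have h3 : bb tail ord y (rot d) = 0 := by
      rw [bb]
      apply Finset.sum_eq_zero
      intro d' _
      rw [h1, if_neg (fun h => Nat.not_lt_zero _ h.2)]
    rw [h3, bb, hd, ← Finset.sum_add_distrib]
    refine (hy (tail d)).symm.trans (Finset.sum_congr rfl ?_)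
    intro d' _
    by_cases ht : tail d' = tail d
    · have hle := h2 d' ht
      by_cases hlt : ord d' < ord d
      · have hne : d' ≠ d := by rintro rfl; exact lt_irrefl _ hlt
        rw [if_pos ht, if_pos ⟨ht, hlt⟩, if_neg hne, add_zero]
      · have he : d' = d := ho.inj _ _ ht (by omega)
        rw [if_pos ht, if_neg (fun h => hlt h.2), if_pos he, zero_add]
    · have hne : d' ≠ d := by rintro rfl; exact ht rfl
      rw [if_neg ht, if_neg (fun h => ht h.1), if_neg hne, add_zero]

theorem bb_mem_W (ho : IsOrd rot tail ord) {y : E → K} (hy : IsEven tail y) :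
    bb tail ord y ∈ W rot := by
  intro e
  rw [bb_rot ho hy, bb_rot ho hy]
  have h2 : (2 : K) = 0 := rfl
  linear_combination (bb tail ord y (e, false) + y e + bb tail ord y (e, true)) * h2

theorem om_bb (ho : IsOrd rot tail ord) {x y : E → K} (hx : IsEven tail x)
    (hy : IsEven tail y) :
    om rot (bb tail ord x) (bb tail ord y) = gg tail ord x y := by
  rw [om, gg]
  apply Finset.sum_congr rfl
  intro e _
  rw [bb_rot ho hx, bb_rot ho hy]
  have h2 : (2 : K) = 0 := rfl
  linear_combination (bb tail ord x (e, false)) *
    (bb tail ord y (e, false) + bb tail ord y (e, true) + y e) * h2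

theorem gg_symm (ho : IsOrd rot tail ord) {x y : E → K} (hx : IsEven tail x)
    (hy : IsEven tail y) : gg tail ord x y = gg tail ord y x := by
  rw [← om_bb ho hx hy, ← om_bb ho hy hx]
  exact om_symm rot (bb_mem_W ho hx) (bb_mem_W ho hy)

theorem gg_self (ho : IsOrd rot tail ord) {x : E → K} (hx : IsEven tail x) :
    gg tail ord x x = 0 := by
  rw [← om_bb ho hx hx]
  exact om_self rot (bb_mem_W ho hx)

omit [DecidableEq E] in
theorem bb_eq_sum {y : E → K} {d : E × Bool} (S : Finset (E × Bool))
    (hS : ∀ d' ∈ S, tail d' = tail d)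
    (hS' : ∀ d', tail d' = tail d → d' ∉ S → y d'.1 = 0) :
    bb tail ord y d = ∑ d' ∈ S, if ord d' < ord d then y d'.1 else 0 := by
  rw [bb]
  symm
  rw [← Finset.sum_subset (Finset.subset_univ S)]
  · apply Finset.sum_congr rfl
    intro d' hd'
    simp [hS d' hd']
  · intro d' _ hd'
    by_cases ht : tail d' = tail d
    · simp [hS' d' ht hd']
    · rw [if_neg (fun h => ht h.1)]

omit [DecidableEq E] in
theorem bb_eq_zero {y : E → K} {d : E × Bool} (h : ∀ d', tail d' = tail d → y d'.1 = 0) :
    bb tail ord y d = 0 := by
  rw [bb]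
  apply Finset.sum_eq_zero
  intro d' _
  by_cases ht : tail d' = tail d
  · simp [h d' ht]
  · rw [if_neg (fun h => ht h.1)]

/-- The Gram matrix of a sequence of even functions: if `elim` finds rank `r` in the bit rows then
`r` is at most `2 - χ`. -/
theorem rank_bound [Nonempty E] (ho : IsOrd rot tail ord) (hc : Conn rot)
    (n : ℕ) (y : ℕ → E → K) (hy : ∀ j, IsEven tail (y j))
    (rows : ℕ → ℕ)
    (hrows : ∀ i < n, ∀ j, gg tail ord (y i) (y j) = vec (rows i) j) (m : ℕ) :
    elim m ((List.range n).map rows) + numOrbits rot + numOrbits (rot * flip) ≤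
      Fintype.card E + 2 := by
  let S : Submodule K (ℕ → K) := Submodule.span K (Set.range fun i : Fin n => vec (rows i))
  have : FiniteDimensional K S := FiniteDimensional.span_of_finite K (Set.finite_range _)
  have h1 : elim m ((List.range n).map rows) ≤ finrank K S := by
    apply elim_le
    intro r hr
    rw [List.mem_map] at hr
    obtain ⟨i, hi, rfl⟩ := hr
    exact Submodule.subset_span ⟨⟨i, List.mem_range.mp hi⟩, rfl⟩
  have h2 := finrank_le rot hc (fun j => bb tail ord (y j)) (fun j => bb_mem_W ho (hy j)) S (by
    intro f hf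
    induction hf using Submodule.span_induction with
    | mem f hf =>
      obtain ⟨i, rfl⟩ := hf
      refine ⟨bb tail ord (y i), bb_mem_W ho (hy i), ?_⟩
      intro j
      rw [om_bb ho (hy i) (hy j), hrows i i.2 j]
    | zero =>
      refine ⟨0, (W rot).zero_mem, ?_⟩
      intro j
      exact ((omL rot (bb tail ord (y j))).map_zero).symm
    | add f g _ _ hf hg =>
      obtain ⟨b, hb, hb'⟩ := hf
      obtain ⟨c, hcc, hc'⟩ := hg
      refine ⟨b + c, (W rot).add_mem hb hcc, ?_⟩
      intro j
      have : om rot (b + c) (bb tail ord (y j)) =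
        om rot b (bb tail ord (y j)) + om rot c (bb tail ord (y j)) :=
        (omL rot (bb tail ord (y j))).map_add b c
      rw [this, Pi.add_apply, hb', hc']
    | smul a f _ hf =>
      obtain ⟨b, hb, hb'⟩ := hf
      refine ⟨a • b, (W rot).smul_mem a hb, ?_⟩
      intro j
      have : om rot (a • b) (bb tail ord (y j)) = a • om rot b (bb tail ord (y j)) :=
        (omL rot (bb tail ord (y j))).map_smul a b
      rw [this, Pi.smul_apply, hb'])
  omega

end TH482.HT
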