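import Mathlib
import Pool.Agent.TH482.HT.Word

/-! # The grid graph has no embedding in a surface of small genus -/

namespace TH482.HT

open Equiv Module

variable {N M k : ℕ}

theorem ends_ne (w : Fin (N + 1) → Fin k) (d : Ed N M × Bool) : tail w d ≠ tail w (flip d) := by
  obtain ⟨⟨c, r⟩ | ⟨c, r⟩, b⟩ := d <;> cases b <;>
    simp only [tail, flip_apply, Bool.not_false, Bool.not_true] <;> intro h
  · simp [Fin.ext_iff] at h
  · simp [Fin.ext_iff] at h
  · split_ifs at h
    simp [Fin.ext_iff] at h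
  · split_ifs at h
    simp [Fin.ext_iff] at h

theorem ends_inj (w : Fin (N + 1) → Fin k) {d d' : Ed N M × Bool}
    (h1 : tail w d = tail w d') (h2 : tail w (flip d) = tail w (flip d')) : d = d' := by
  obtain ⟨⟨c, r⟩ | ⟨c, r⟩, b⟩ := d <;> obtain ⟨⟨c', r'⟩ | ⟨c', r'⟩, b'⟩ := d' <;>
    cases b <;> cases b' <;>
    simp only [tail, flip_apply, Bool.not_false, Bool.not_true] at h1 h2 <;>
    (try split_ifs at h1 h2) <;>
    simp only [Sum.inl.injEq, Prod.mk.injEq, Fin.ext_iff, Fin.val_castSucc, Fin.val_succ,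
      reduceCtorEq, Sum.inr.injEq, and_true, and_false, true_and, false_and] at h1 h2 ⊢ <;>
    omega

/-- the grid with letter vertices -/
def gridGraph (M : ℕ) (w : Fin (N + 1) → Fin k) : SimpleGraph (Vt N M k) where
  Adj u v := ∃ d : Ed N M × Bool, tail w d = u ∧ tail w (flip d) = v
  symm := ⟨by
    rintro u v ⟨d, rfl, rfl⟩
    exact ⟨flip d, rfl, by simp⟩⟩
  loopless := ⟨by
    rintro u ⟨d, h1, h2⟩
    exact ends_ne w d (h1.trans h2.symm)⟩

theorem adj_iff {w : Fin (N + 1) → Fin k} {u v : Vt N M k} :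
    (gridGraph M w).Adj u v ↔ ∃ d : Ed N M × Bool, tail w d = u ∧ tail w (flip d) = v := Iff.rfl

theorem gridGraph_connected (w : Fin (N + 1) → Fin k) (bcol : Fin k → Fin (N + 1))
    (hb : ∀ l, w (bcol l) = l) : (gridGraph M w).Connected := by
  have hcol : ∀ (c : Fin (N + 1)) (r : ℕ) (hr : r < M + 1),
      (gridGraph M w).Reachable (Sum.inl (c, ⟨r, hr⟩)) (Sum.inl (c, 0)) := by
    intro c r
    induction r with
    | zero => intro _; exact SimpleGraph.Reachable.refl _
    | succ n ih =>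
      intro hr
      refine SimpleGraph.Reachable.trans ?_ (ih (by omega))
      apply SimpleGraph.Adj.reachable
      refine ⟨(Sum.inr (c, ⟨n, by omega⟩), true), ?_, rfl⟩
      rw [tail_D' w c _ hr]
  have hrow : ∀ (c : ℕ) (hc : c < N + 1),
      (gridGraph M w).Reachable (Sum.inl (⟨c, hc⟩, 0)) (Sum.inl (0, 0)) := by
    intro c
    induction c with
    | zero => intro _; exact SimpleGraph.Reachable.refl _
    | succ n ih =>
      intro hc
      refine SimpleGraph.Reachable.trans ?_ (ih (by omega))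
      apply SimpleGraph.Adj.reachable
      exact ⟨(Sum.inl (⟨n, by omega⟩, 0), true), rfl, rfl⟩
  have hall : ∀ v, (gridGraph M w).Reachable v (Sum.inl (0, 0)) := by
    intro v
    rcases v with ⟨c, r⟩ | l
    · exact (hcol c r.val r.2).trans (hrow c.val c.2)
    · have h1 : (gridGraph M w).Adj (Sum.inr l) (Sum.inl (bcol l, Fin.last M)) := by
        refine ⟨(Sum.inr (bcol l, Fin.last M), true), ?_, rfl⟩
        rw [tail_T, hb]
      exact h1.reachable.trans ((hcol _ _ (Fin.last M).2).trans (hrow _ (bcol l).2))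
  exact { preconnected := fun u v => (hall u).trans (hall v).symm, nonempty := ⟨Sum.inl (0, 0)⟩ }

section orbits

theorem zpow_congr {A B : Type} (φ : A ≃ B) {σ : Perm A} {τ : Perm B}
    (h : ∀ a, φ (σ a) = τ (φ a)) (n : ℤ) (a : A) : φ ((σ ^ n) a) = (τ ^ n) (φ a) := by
  have hinv : ∀ a, φ (σ⁻¹ a) = τ⁻¹ (φ a) := by
    intro a
    apply τ.injective
    rw [← h]
    have e1 : σ (σ⁻¹ a) = a := σ.apply_symm_apply a
    have e2 : τ (τ⁻¹ (φ a)) = φ a := τ.apply_symm_apply _
    rw [e1, e2]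
  induction n using Int.induction_on generalizing a with
  | zero => simp
  | succ n ih => rw [zpow_add, zpow_add, zpow_one, zpow_one, Perm.mul_apply, Perm.mul_apply, ih, h]
  | pred n ih =>
    rw [zpow_sub, zpow_sub, zpow_one, zpow_one, Perm.mul_apply, Perm.mul_apply, ih, hinv]

theorem sameCycle_congr {A B : Type} (φ : A ≃ B) {σ : Perm A} {τ : Perm B}
    (h : ∀ a, φ (σ a) = τ (φ a)) (a b : A) : σ.SameCycle a b ↔ τ.SameCycle (φ a) (φ b) := by
  constructor
  · rintro ⟨n, rfl⟩
    exact ⟨n, (zpow_congr φ h n a).symm⟩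
  · rintro ⟨n, hn⟩
    refine ⟨n, φ.injective ?_⟩
    rw [zpow_congr φ h]
    exact hn

theorem numOrbits_congr {A B : Type} (φ : A ≃ B) {σ : Perm A} {τ : Perm B}
    (h : ∀ a, φ (σ a) = τ (φ a)) : numOrbits σ = numOrbits τ :=
  Nat.card_congr (Quotient.congr φ fun a b => sameCycle_congr φ h a b)

theorem le_numOrbits {D A : Type} [Finite D] [Fintype A] (σ : Perm D) (f : D → A)
    (h : ∀ d, f (σ d) = f d) (hs : Function.Surjective f) : Fintype.card A ≤ numOrbits σ := by
  have hz : ∀ (n : ℤ) d, f ((σ ^ n) d) = f d := by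
    intro n
    induction n using Int.induction_on with
    | zero => intro d; simp
    | succ n ih => intro d; rw [zpow_add, zpow_one, Perm.mul_apply, ih, h]
    | pred n ih =>
      intro d
      rw [zpow_sub, zpow_one, Perm.mul_apply, ih]
      have e1 : σ (σ⁻¹ d) = d := σ.apply_symm_apply d
      have := h (σ⁻¹ d)
      rw [e1] at this
      exact this.symm
  rw [← Nat.card_eq_fintype_card]
  refine Nat.card_le_card_of_surjective
    (fun q : Quotient (Perm.SameCycle.setoid σ) => Quotient.lift f (fun a b hab => ?_) q) ?_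
  · obtain ⟨n, rfl⟩ := hab
    exact (hz n a).symm
  · intro a
    obtain ⟨d, rfl⟩ := hs a
    exact ⟨Quotient.mk _ d, rfl⟩

end orbits

theorem no_embedding {N k : ℕ} (D : WData N k) {M g : ℕ} (hN : 3 ≤ N)
    (hm : 3 * (g + 1) ≤ M + 1)
    (hel : 2 * (g + 1) ≤ elim (2 * (g + 1)) ((List.range (2 * (g + 1))).map hrow))
    (hf : finalB D.nc D.np (2 * (g + 1)) D.sm D.nb D.pidx = true)
    (ℰ : Drawing (gridGraph M D.w)) (hE : ℰ.IsEmbedding) : ¬ ℰ.OnSurface g := by
  intro hg
  have := ℰ.fin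
  have hadj : ∀ d : Ed N M × Bool, (gridGraph M D.w).Adj (tail D.w d) (tail D.w (flip d)) :=
    fun d => ⟨d, rfl, rfl⟩
  choose f hf1 hf2 using fun d : Ed N M × Bool => ℰ.start _ _ (hadj d)
  have hfs : ∀ d, ℰ.src (f d) = tail D.w d := fun d => (hf1 d).1
  have hft : ∀ d, ℰ.tgt (f d) = tail D.w (flip d) := fun d => (hf1 d).2.1
  have hbij : Function.Bijective f := by
    constructor
    · intro d d' h
      apply ends_inj D.w
      · rw [← hfs, ← hfs, h]
      · rw [← hft, ← hft, h]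
    · intro e
      obtain ⟨d, h1, h2⟩ := ℰ.adj e
      exact ⟨d, (hf2 d e ⟨h1.symm, h2.symm, hE e⟩).symm⟩
  let φ : Ed N M × Bool ≃ ℰ.D := Equiv.ofBijective f hbij
  have hφ : ∀ d, φ d = f d := fun d => rfl
  let rot' : Perm (Ed N M × Bool) := φ.trans (ℰ.rot.trans φ.symm)
  have hrot : ∀ d, φ (rot' d) = ℰ.rot (φ d) := by
    intro d
    exact φ.apply_symm_apply _
  have hflip : ∀ d, φ (flip d) = ℰ.rev (φ d) := by
    intro d
    symm
    refine hf2 (flip d) _ ⟨?_, ?_, hE _⟩
    · rw [ℰ.src_rev, hφ, hft]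
    · rw [← ℰ.src_rev, ℰ.rev_rev, hφ, hfs]
      simp
  have hT : IsTail rot' (tail D.w) := by
    constructor
    · intro d
      rw [← hfs, ← hfs, ← hφ, ← hφ, hrot]
      exact (ℰ.vertex _ (hE _)).2
    · intro d d' h
      rw [sameCycle_congr φ hrot]
      refine ℰ.vertex_cyclic _ _ (hE _) (hE _) ?_
      rw [hφ, hφ, hfs, hfs, h]
  have hC : Conn rot' := by
    intro F hF1 hF2 d d'
    have huniv := ℰ.conn {e | F (φ.symm e) = F d'} ⟨φ d', by simp⟩ (by
      intro e he
      constructor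
      · have h1 := hF1 (φ.symm e)
        have h2 : φ.symm (ℰ.rot e) = rot' (φ.symm e) := by
          rw [Equiv.symm_apply_eq, hrot, Equiv.apply_symm_apply]
        simp only [Set.mem_setOf_eq] at he ⊢
        rw [h2, h1, he]
      · have h1 := hF2 (φ.symm e)
        have h2 : φ.symm (ℰ.rev e) = flip (φ.symm e) := by
          rw [Equiv.symm_apply_eq, hflip, Equiv.apply_symm_apply]
        simp only [Set.mem_setOf_eq] at he ⊢
        rw [h2, h1, he])
    have : φ d ∈ (Set.univ : Set ℰ.D) := Set.mem_univ _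
    rw [← huniv] at this
    simpa using this
  have h1 := D.genus_bound hT hC hN (g + 1) hm hel hf
  have o1 : numOrbits rot' = numOrbits ℰ.rot := numOrbits_congr φ hrot
  have o2 : numOrbits (rot' * flip) = numOrbits (ℰ.rot * ℰ.rev) := by
    apply numOrbits_congr φ
    intro d
    rw [Perm.mul_apply, Perm.mul_apply, hrot, hflip]
  have o3 : numOrbits (flip : Perm (Ed N M × Bool)) = numOrbits ℰ.rev :=
    numOrbits_congr φ hflip
  have o4 : Fintype.card (Ed N M) ≤ numOrbits (flip : Perm (Ed N M × Bool)) :=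
    le_numOrbits flip (fun d => d.1) (fun d => rfl) (fun e => ⟨(e, false), rfl⟩)
  have hg' : 2 - 2 * (g : ℤ) ≤
      (numOrbits ℰ.rot : ℤ) - (numOrbits ℰ.rev : ℤ) + (numOrbits (ℰ.rot * ℰ.rev) : ℤ) := hg
  rw [o1, o2] at h1
  rw [o3] at o4
  omega

end TH482.HT
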