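import Mathlib
import Pool.Agent.TH482.HT.Pos2

/-! # Euler characteristic and crossings of the drawing given by a table -/

namespace TH482.HT

open Equiv Module

variable {N M k : ℕ} [NeZero N] {w : Fin (N + 1) → Fin k} {t : Tab} (h : GoodTab N M k w t)

theorem tab_euler (hV : 0 < t.Vn) (hF : 0 < t.Fn) :
    (t.Vn : ℤ) - t.En + t.Fn ≤ (tabDrawing h).euler := by
  have := h.ne
  have nV : NeZero t.Vn := ⟨by omega⟩
  have nF : NeZero t.Fn := ⟨by omega⟩
  have h1 : t.Vn ≤ numOrbits (rotP h) := by
    have := le_numOrbits (rotP h) (fun d => Fin.ofNat t.Vn (get t.VLAB (t.enc d)))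
      (by
        intro d
        rw [enc_rotP, (h.s6 (t.enc_lt d)).1])
      (by
        intro v
        have h7 := allB_spec h.c7 v.val v.2
        obtain ⟨a1, a2⟩ := Tab.bnd_spec h7
        refine ⟨t.dec (get t.VREP v.val), ?_⟩
        apply Fin.ext
        change get t.VLAB (t.enc (t.dec (get t.VREP v.val))) % t.Vn = v.val
        rw [t.enc_dec (GoodTab.blt_eq a1), GoodTab.beq_eq a2, Nat.mod_eq_of_lt v.2])
    simpa using this
  have h2 : t.Fn ≤ numOrbits (rotP h * flip) := by
    have := le_numOrbits (rotP h * flip) (fun d => Fin.ofNat t.Fn (get t.FACE (t.enc d)))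
      (by
        intro d
        rw [Perm.mul_apply, enc_rotP, t.enc_flip, (h.s6 (t.enc_lt d)).2])
      (by
        intro v
        have h7 := allB_spec h.c8 v.val v.2
        obtain ⟨a1, a2⟩ := Tab.bnd_spec h7
        refine ⟨t.dec (get t.FREP v.val), ?_⟩
        apply Fin.ext
        change get t.FACE (t.enc (t.dec (get t.FREP v.val))) % t.Fn = v.val
        rw [t.enc_dec (GoodTab.blt_eq a1), GoodTab.beq_eq a2, Nat.mod_eq_of_lt v.2])
    simpa using this
  have h3 : numOrbits (flip : Perm (Fin t.En × Bool)) ≤ t.En := by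
    have : Nat.card (Quotient (Perm.SameCycle.setoid (flip : Perm (Fin t.En × Bool)))) ≤
        Nat.card (Fin t.En) := by
      refine Nat.card_le_card_of_surjective (fun e => Quotient.mk _ (e, false)) ?_
      intro q
      induction q using Quotient.ind with
      | _ d =>
        obtain ⟨e, b⟩ := d
        refine ⟨e, ?_⟩
        apply Quotient.sound
        cases b
        · exact Perm.SameCycle.refl _ _
        · exact ⟨1, by simp⟩
    rw [show Nat.card (Fin t.En) = t.En by simp] at this
    exact this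
  have h4 : (tabDrawing h).euler = (numOrbits (rotP h) : ℤ) -
      (numOrbits (flip : Perm (Fin t.En × Bool)) : ℤ) + (numOrbits (rotP h * flip) : ℤ) := rfl
  rw [h4]
  omega

/-- the two labels are edges without common end -/
def indB (w : Fin (N + 1) → Fin k) (M : ℕ) (l l' : ℕ) : Bool :=
  (fun a b a' b' => cond (Nat.beq a a') false (cond (Nat.beq a b') false
    (cond (Nat.beq b a') false (cond (Nat.beq b b') false true))))
    (vcode (tail w (decL N M l))) (vcode (tail w (flip (decL N M l))))
    (vcode (tail w (decL N M l'))) (vcode (tail w (flip (decL N M l'))))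

/-- check for algebraic crossing number zero -/
def chkA (w : Fin (N + 1) → Fin k) (M : ℕ) (t : Tab) (c : ℕ) : Bool :=
  cond (Nat.beq (get t.POS c) 0) true
    (cond (indB w M (get t.LAB c) (get t.LAB (get t.ROT c)))
      (Tab.bnd (Nat.blt (get t.MU c) (2 * t.En))
      (Tab.bnd (Nat.beq (get t.LAB (get t.MU c)) (get t.LAB c))
      (Tab.bnd (Nat.blt 0 (get t.POS (get t.MU c)))
      (Tab.bnd (Nat.beq (get t.LAB (get t.ROT (get t.MU c))) (Tab.oth (get t.LAB (get t.ROT c))))
        (Nat.beq (get t.MU (get t.MU c)) c))))) true)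

/-- check for even crossing numbers -/
def chkE (w : Fin (N + 1) → Fin k) (M : ℕ) (t : Tab) (c : ℕ) : Bool :=
  cond (Nat.beq (get t.POS c) 0) true
    (cond (indB w M (get t.LAB c) (get t.LAB (get t.ROT c)))
      (Tab.bnd (Nat.blt (get t.MU c) (2 * t.En))
      (Tab.bnd (Nat.beq (get t.LAB (get t.MU c)) (get t.LAB c))
      (Tab.bnd (Nat.blt 0 (get t.POS (get t.MU c)))
      (Tab.bnd (cond (Nat.beq (get t.LAB (get t.ROT (get t.MU c)))
          (Tab.oth (get t.LAB (get t.ROT c)))) true
          (Nat.beq (get t.LAB (get t.ROT (get t.MU c))) (get t.LAB (get t.ROT c))))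
      (Tab.bnd (Nat.beq (get t.MU (get t.MU c)) c) (Bool.not (Nat.beq (get t.MU c) c))))))) true)

theorem indB_true {a b : Ed N M × Bool}
    (hi : Indep (tail w a) (tail w (flip a)) (tail w b) (tail w (flip b))) :
    indB w M (encL a) (encL b) = true := by
  obtain ⟨h1, h2, h3, h4⟩ := hi
  have f : ∀ {x y : Vt N M k}, x ≠ y → Nat.beq (vcode x) (vcode y) = false := by
    intro x y hxy
    cases e : Nat.beq (vcode x) (vcode y)
    · rfl
    · exact absurd (vcode_inj (GoodTab.beq_eq e)) hxy
  simp only [indB, decL_encL]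
  rw [f h1, f h2, f h3, f h4]
  rfl

theorem mu_spec (hA : allB (2 * t.En) (chkA w M t) = true) {d : Fin t.En × Bool}
    {a b : Ed N M × Bool} (hpos : 0 < get t.POS (t.enc d))
    (ha : get t.LAB (t.enc d) = encL a) (hb : get t.LAB (get t.ROT (t.enc d)) = encL b)
    (hi : Indep (tail w a) (tail w (flip a)) (tail w b) (tail w (flip b))) :
    get t.MU (t.enc d) < 2 * t.En ∧
    get t.LAB (get t.MU (t.enc d)) = encL a ∧ 0 < get t.POS (get t.MU (t.enc d)) ∧
    get t.LAB (get t.ROT (get t.MU (t.enc d))) = Tab.oth (encL b) ∧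
    get t.MU (get t.MU (t.enc d)) = t.enc d := by
  have h1 := allB_spec hA _ (t.enc_lt d)
  have hb0 : Nat.beq (get t.POS (t.enc d)) 0 = false := by
    cases e : Nat.beq (get t.POS (t.enc d)) 0
    · rfl
    · have := GoodTab.beq_eq e; omega
  rw [chkA, hb0, cond_false, ha, hb, indB_true hi, cond_true] at h1
  obtain ⟨a1, h2⟩ := Tab.bnd_spec h1
  obtain ⟨a2, h3⟩ := Tab.bnd_spec h2
  obtain ⟨a3, h4⟩ := Tab.bnd_spec h3
  obtain ⟨a4, a5⟩ := Tab.bnd_spec h4
  exact ⟨GoodTab.blt_eq a1, GoodTab.beq_eq a2, GoodTab.blt_eq a3, GoodTab.beq_eq a4,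
    GoodTab.beq_eq a5⟩

include h in
theorem oth_encL (b : Ed N M × Bool) (hb : encL b < 2 * (N * (M + 1) + (N + 1) * (M + 1))) :
    Tab.oth (encL b) = encL (flip b) := by
  have := (h.s3 hb).2.1
  rw [decL_encL] at this
  exact this.symm

theorem left_iff (a b : Ed N M × Bool) (d : Fin t.En × Bool) :
    (d ∈ (tabDrawing h).leftCrossings (tail w a) (tail w (flip a)) (tail w b)
      (tail w (flip b))) ↔ (0 < get t.POS (t.enc d) ∧ get t.LAB (t.enc d) = encL a ∧
      get t.LAB (get t.ROT (t.enc d)) = encL b) := by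
  constructor
  · rintro ⟨h1, h2, h3, h4, h5⟩
    have e1 : (labP d : Ed N M × Bool) = a := ends_inj w h2 h3
    have e2 : (labP (rotP h d) : Ed N M × Bool) = b := ends_inj w h4 h5
    refine ⟨h1, ?_, ?_⟩
    · rw [← encL_labP h, e1]
    · rw [← enc_rotP h, ← encL_labP h, e2]
  · rintro ⟨h1, h2, h3⟩
    have e1 : (labP d : Ed N M × Bool) = a := by
      apply encL_inj
      rw [encL_labP h, h2]
    have e2 : (labP (rotP h d) : Ed N M × Bool) = b := by
      apply encL_inj
      rw [encL_labP h, enc_rotP, h3]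
    refine ⟨h1, ?_, ?_, ?_, ?_⟩
    · change tail w (labP d) = _
      rw [e1]
    · change tail w (flip (labP d)) = _
      rw [e1]
    · change tail w (labP (rotP h d)) = _
      rw [e2]
    · change tail w (flip (labP (rotP h d))) = _
      rw [e2]

theorem indep_swap {a b : Ed N M × Bool}
    (hi : Indep (tail w a) (tail w (flip a)) (tail w b) (tail w (flip b))) :
    Indep (tail w a) (tail w (flip a)) (tail w (flip b)) (tail w (flip (flip b))) := by
  obtain ⟨h1, h2, h3, h4⟩ := hi
  have : flip (flip b) = b := by simp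
  rw [this]
  exact ⟨h2, h1, h4, h3⟩

theorem tab_algZero (hA : allB (2 * t.En) (chkA w M t) = true) :
    (tabDrawing h).IndepAlgZero := by
  have := h.ne
  rintro u v u' v' ⟨a, rfl, rfl⟩ ⟨b, rfl, rfl⟩ hi
  have hflip : flip (flip b) = b := by simp
  have hswap : (tabDrawing h).leftCrossings (tail w a) (tail w (flip a)) (tail w (flip b))
      (tail w b) = (tabDrawing h).leftCrossings (tail w a) (tail w (flip a)) (tail w (flip b))
      (tail w (flip (flip b))) := by rw [hflip]
  rw [hswap]
  -- the map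
  have key : ∀ b : Ed N M × Bool, Indep (tail w a) (tail w (flip a)) (tail w b)
      (tail w (flip b)) → ∀ d ∈ (tabDrawing h).leftCrossings (tail w a) (tail w (flip a))
      (tail w b) (tail w (flip b)),
      t.dec (get t.MU (t.enc d)) ∈ (tabDrawing h).leftCrossings (tail w a) (tail w (flip a))
      (tail w (flip b)) (tail w (flip (flip b))) ∧
      t.dec (get t.MU (t.enc (t.dec (get t.MU (t.enc d))))) = d := by
    intro b hib d hd
    have h1 := (left_iff h a b d).mp hd
    have h2 := mu_spec hA h1.1 h1.2.1 h1.2.2 hib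
    constructor
    · rw [left_iff h a (flip b), t.enc_dec h2.1]
      refine ⟨h2.2.2.1, h2.2.1, ?_⟩
      rw [h2.2.2.2.1]
      apply oth_encL h
      rw [← h1.2.2, ← enc_rotP h d]
      exact (h.s2 (t.enc_lt _)).1
    · rw [t.enc_dec h2.1, h2.2.2.2.2, t.dec_enc]
  refine Nat.card_congr ⟨fun d => ⟨t.dec (get t.MU (t.enc d.1)), (key b hi d.1 d.2).1⟩,
    fun d => ⟨t.dec (get t.MU (t.enc d.1)), ?_⟩, ?_, ?_⟩
  · have h1 := (key (flip b) (indep_swap hi) d.1 d.2).1
    have hh : ∀ x, x ∈ (tabDrawing h).leftCrossings (tail w a) (tail w (flip a))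
        (tail w (flip (flip b))) (tail w (flip (flip (flip b)))) →
        x ∈ (tabDrawing h).leftCrossings (tail w a) (tail w (flip a)) (tail w b)
          (tail w (flip b)) := by
      intro x hx
      rw [hflip] at hx
      exact hx
    exact hh _ h1
  · intro d
    apply Subtype.ext
    exact (key b hi d.1 d.2).2
  · intro d
    apply Subtype.ext
    exact (key (flip b) (indep_swap hi) d.1 d.2).2

end TH482.HT
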